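import Pool.Agent.helper50.BS.SpecT

/-! # bs:TB2. Additivity over the parts -/

namespace Pool.Agent.BS

open Finset

open scoped Classical

noncomputable section

theorem TB2_one (PP : Finset (Finset ℕ)) (W : Finset ℕ) (h : IsPart PP W) (v : ℕ) (Q : Prop)
    [Decidable Q] :
    ∑ C ∈ PP, (if v ∈ C ∧ Q then 1 else 0) = if v ∈ W ∧ Q then 1 else 0 := by
  obtain ⟨-, hd, hW⟩ := h
  by_cases hv : v ∈ W
  · have hv' := hv
    rw [← hW, Finset.mem_biUnion] at hv'
    obtain ⟨C0, hC0, hvC⟩ := hv'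
    rw [Finset.sum_eq_single C0]
    · have hvC' : v ∈ C0 := hvC
      simp only [hv, hvC', true_and]
    · intro C hC hne
      rw [if_neg]
      rintro ⟨h1, -⟩
      exact Finset.disjoint_left.1 (hd C hC C0 hC0 hne) h1 hvC
    · intro h1
      exact absurd hC0 h1
  · rw [if_neg (fun h1 => hv h1.1)]
    refine Finset.sum_eq_zero fun C hC => ?_
    rw [if_neg]
    rintro ⟨h1, -⟩
    apply hv
    rw [← hW, Finset.mem_biUnion]
    exact ⟨C, hC, h1⟩

theorem TB2_c (g : IG) (C : Finset ℕ) (A : Finset (ℕ ⊕ ℕ)) : g.cW C (A ∩ g.X0 C) =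
    ∑ e ∈ g.E, ((if g.s e ∈ C ∧ ¬ (Sum.inl (g.s e) ∈ A ↔ Sum.inr e ∈ A) then 1 else 0) +
    (if g.t e ∈ C ∧ ¬ (Sum.inl (g.t e) ∈ A ↔ Sum.inr e ∈ A) then 1 else 0)) := by
  unfold IG.cW
  refine Finset.sum_congr rfl fun e he => ?_
  have hin : ∀ v ∈ C, (Sum.inl v : ℕ ⊕ ℕ) ∈ g.X0 C := fun v hv => by
    unfold IG.X0
    exact Finset.inl_mem_disjSum.2 hv
  have h1 : ∀ v, v ∈ C → (g.s e ∈ C ∨ g.t e ∈ C) →
      ((Sum.inl v ∈ A ∩ g.X0 C ↔ Sum.inr e ∈ A ∩ g.X0 C) ↔ (Sum.inl v ∈ A ↔ Sum.inr e ∈ A)) := by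
    intro v hv hst
    have h2 : (Sum.inr e : ℕ ⊕ ℕ) ∈ g.X0 C := by
      unfold IG.X0
      exact Finset.inr_mem_disjSum.2 (Finset.mem_filter.2 ⟨he, hst⟩)
    have h3 := hin v hv
    rw [Finset.mem_inter, Finset.mem_inter]
    tauto
  congr 1
  · exact if_congr (and_congr_right fun hs => not_congr (h1 _ hs (Or.inl hs))) rfl rfl
  · exact if_congr (and_congr_right fun hs => not_congr (h1 _ hs (Or.inr hs))) rfl rfl

theorem TB2 : TB2_stmt := by
  intro g PP W A h
  constructor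
  · rw [Finset.sum_congr rfl (fun C _ => TB2_c g C A), Finset.sum_comm]
    unfold IG.cW
    refine Finset.sum_congr rfl fun e _ => ?_
    rw [Finset.sum_add_distrib, TB2_one PP W h, TB2_one PP W h]
  · have h1 : ∀ C ∈ PP, nW C (A ∩ g.X0 C) = (A.toLeft ∩ C).card := by
      intro C _
      unfold nW
      congr 1
      ext v
      rw [Finset.mem_inter, Finset.mem_inter, Finset.mem_toLeft, Finset.mem_toLeft,
        Finset.mem_inter]
      constructor
      · rintro ⟨⟨h1, -⟩, h2⟩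
        exact ⟨h1, h2⟩
      · rintro ⟨h1, h2⟩
        refine ⟨⟨h1, ?_⟩, h2⟩
        unfold IG.X0
        exact Finset.inl_mem_disjSum.2 h2
    rw [Finset.sum_congr rfl h1]
    obtain ⟨-, hd, hW⟩ := h
    unfold nW
    have h2 : A.toLeft ∩ W = PP.biUnion (fun C => A.toLeft ∩ C) := by
      rw [← hW]
      ext v
      simp only [Finset.mem_inter, Finset.mem_biUnion, id]
      constructor
      · rintro ⟨h1, C, hC, h2⟩
        exact ⟨C, hC, h1, h2⟩
      · rintro ⟨C, hC, h1, h2⟩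
        exact ⟨h1, C, hC, h2⟩
    rw [h2, Finset.card_biUnion]
    intro C hC D hD hne
    exact Finset.disjoint_of_subset_left Finset.inter_subset_right
      (Finset.disjoint_of_subset_right Finset.inter_subset_right (hd C hC D hD hne))

end

end Pool.Agent.BS
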